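import Mathlib

/-!
# Cost of left multiplications and complexity of rational expressions
-/

open Module

namespace Pool.Agent.Helper41.CT

variable {K Q : Type*} [Field K] [DivisionRing Q] [Algebra K Q]

/-- Left multiplication by `q` moves at most `n` dimensions of `T` out of `T`. -/
def Bd (T : Submodule K Q) (q : Q) (n : ℕ) : Prop :=
  finrank K ↥(T.map (LinearMap.mulLeft K q) ⊔ T) ≤ finrank K T + n

lemma finrank_map_mulLeft (T : Submodule K Q) {q : Q} (hq : q ≠ 0) :
    finrank K ↥(T.map (LinearMap.mulLeft K q)) = finrank K T := by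
  have hinj : Function.Injective (LinearMap.mulLeft K q : Q →ₗ[K] Q) := by
    intro x y hxy
    exact mul_left_cancel₀ hq hxy
  exact (LinearEquiv.finrank_eq (Submodule.equivMapOfInjective _ hinj T)).symm

lemma map_mulLeft_zero (T : Submodule K Q) :
    T.map (LinearMap.mulLeft K (0 : Q)) = ⊥ := by
  rw [eq_bot_iff]
  rintro x ⟨y, -, rfl⟩
  simp

lemma Bd.mono {T : Submodule K Q} {q : Q} {m n : ℕ} (h : Bd T q m) (hmn : m ≤ n) : Bd T q n :=
  le_trans h (by omega)

lemma Bd.scalar (T : Submodule K Q) (a : K) : Bd T (algebraMap K Q a) 0 := by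
  unfold Bd
  have : T.map (LinearMap.mulLeft K (algebraMap K Q a)) ⊔ T = T := by
    apply sup_eq_right.2
    rintro x ⟨y, hy, rfl⟩
    rw [LinearMap.mulLeft_apply, ← Algebra.smul_def]
    exact T.smul_mem a hy
  rw [this]
  simp

lemma Bd.add {T : Submodule K Q} [FiniteDimensional K T] {x y : Q} {m n : ℕ}
    (hx : Bd T x m) (hy : Bd T y n) : Bd T (x + y) (m + n) := by
  unfold Bd at *
  set A := T.map (LinearMap.mulLeft K x) ⊔ T with hA
  set B := T.map (LinearMap.mulLeft K y) ⊔ T with hB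
  have h1 : T.map (LinearMap.mulLeft K (x + y)) ⊔ T ≤ A ⊔ B := by
    apply sup_le
    · rintro z ⟨t, ht, rfl⟩
      rw [LinearMap.mulLeft_apply, add_mul]
      apply Submodule.add_mem
      · exact (le_sup_left : A ≤ A ⊔ B) ((le_sup_left : _ ≤ A) ⟨t, ht, rfl⟩)
      · exact (le_sup_right : B ≤ A ⊔ B) ((le_sup_left : _ ≤ B) ⟨t, ht, rfl⟩)
    · exact le_sup_right.trans le_sup_left
  have h2 := Submodule.finrank_mono h1
  have h3 := Submodule.finrank_sup_add_finrank_inf_eq A B
  have h4 : finrank K T ≤ finrank K ↥(A ⊓ B) :=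
    Submodule.finrank_mono (le_inf le_sup_right le_sup_right)
  omega

lemma Bd.mul {T : Submodule K Q} [FiniteDimensional K T] {x y : Q} {m n : ℕ}
    (hx : Bd T x m) (hy : Bd T y n) : Bd T (x * y) (m + n) := by
  by_cases hx0 : x = 0
  · subst hx0
    unfold Bd
    rw [zero_mul, map_mulLeft_zero, bot_sup_eq]
    omega
  unfold Bd at *
  set A := (T.map (LinearMap.mulLeft K y) ⊔ T).map (LinearMap.mulLeft K x) with hA
  set B := T.map (LinearMap.mulLeft K x) ⊔ T with hB
  have h1 : T.map (LinearMap.mulLeft K (x * y)) ⊔ T ≤ A ⊔ B := by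
    apply sup_le
    · rintro z ⟨t, ht, rfl⟩
      apply (le_sup_left : A ≤ A ⊔ B)
      refine ⟨y * t, (le_sup_left : _ ≤ T.map (LinearMap.mulLeft K y) ⊔ T) ⟨t, ht, rfl⟩, ?_⟩
      simp
    · exact le_sup_right.trans le_sup_right
  have h2 := Submodule.finrank_mono h1
  have h3 := Submodule.finrank_sup_add_finrank_inf_eq A B
  have h4 : finrank K ↥(T.map (LinearMap.mulLeft K x)) ≤ finrank K ↥(A ⊓ B) := by
    apply Submodule.finrank_mono
    apply le_inf
    · exact Submodule.map_mono le_sup_right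
    · exact le_sup_left
  have h5 := finrank_map_mulLeft T hx0
  have h6 : finrank K ↥A = finrank K ↥(T.map (LinearMap.mulLeft K y) ⊔ T) :=
    finrank_map_mulLeft _ hx0
  omega

lemma Bd.inv {T : Submodule K Q} {x : Q} {m : ℕ} (hx : Bd T x m) : Bd T x⁻¹ m := by
  by_cases hx0 : x = 0
  · subst hx0
    rw [inv_zero]
    exact hx
  unfold Bd at *
  have h1 : (T.map (LinearMap.mulLeft K x⁻¹) ⊔ T).map (LinearMap.mulLeft K x) =
      T.map (LinearMap.mulLeft K x) ⊔ T := by
    rw [Submodule.map_sup, ← Submodule.map_comp]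
    have : (LinearMap.mulLeft K x).comp (LinearMap.mulLeft K x⁻¹) = LinearMap.id := by
      ext z
      simp [hx0]
    rw [this, Submodule.map_id, sup_comm]
  rw [← finrank_map_mulLeft (T.map (LinearMap.mulLeft K x⁻¹) ⊔ T) hx0, h1]
  exact hx

/-- `Cx K S n q`: the element `q` is the value of a rational expression (sums, products, inverses,
scalars from `K`) with `n` leaves from `S`. -/
inductive Cx (K : Type*) {Q : Type*} [Field K] [DivisionRing Q] [Algebra K Q] (S : Set Q) :
    ℕ → Q → Prop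
  | base (s : Q) (hs : s ∈ S) : Cx K S 1 s
  | scalar (a : K) : Cx K S 0 (algebraMap K Q a)
  | add {m n : ℕ} {x y : Q} (hx : Cx K S m x) (hy : Cx K S n y) : Cx K S (m + n) (x + y)
  | mul {m n : ℕ} {x y : Q} (hx : Cx K S m x) (hy : Cx K S n y) : Cx K S (m + n) (x * y)
  | inv {m : ℕ} {x : Q} (hx : Cx K S m x) : Cx K S m x⁻¹

lemma Cx.bd {S : Set Q} {n : ℕ} {q : Q} (h : Cx K S n q) {T : Submodule K Q}
    [FiniteDimensional K T] {b : ℕ} (hS : ∀ s ∈ S, Bd T s b) : Bd T q (n * b) := by
  induction h with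
  | base s hs => simpa using hS s hs
  | scalar a => simpa using Bd.scalar T a
  | add _ _ hx hy => rw [add_mul]; exact hx.add hy
  | mul _ _ hx hy => rw [add_mul]; exact hx.mul hy
  | inv _ hx => exact hx.inv

lemma Cx.one (S : Set Q) : Cx K S 0 (1 : Q) := by
  simpa using Cx.scalar (K := K) (S := S) (1 : K)

lemma Cx.zero (S : Set Q) : Cx K S 0 (0 : Q) := by
  simpa using Cx.scalar (K := K) (S := S) (0 : K)

lemma Cx.mono {S S' : Set Q} (hSS : S ⊆ S') {n : ℕ} {q : Q} (h : Cx K S n q) : Cx K S' n q := by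
  induction h with
  | base s hs => exact Cx.base s (hSS hs)
  | scalar a => exact Cx.scalar a
  | add _ _ hx hy => exact hx.add hy
  | mul _ _ hx hy => exact hx.mul hy
  | inv _ hx => exact hx.inv

/-- padding: one may raise the number of leaves if `S` is nonempty. -/
lemma Cx.pad {S : Set Q} (hS : S.Nonempty) {n : ℕ} {q : Q} (h : Cx K S n q) (k : ℕ) :
    Cx K S (n + k) q := by
  obtain ⟨s, hs⟩ := hS
  induction k with
  | zero => exact h
  | succ k ih =>
    have h1 : Cx K S (1 + 0) (s * 0) := (Cx.base s hs).mul (Cx.zero S)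
    have h2 := ih.add h1
    rw [mul_zero, add_zero, add_zero] at h2
    exact h2

/-- Complexity under an algebra endomorphism. -/
lemma Cx.map {S S' : Set Q} {c n : ℕ} {q : Q} (h : Cx K S n q) (f : Q →ₐ[K] Q)
    (hf : ∀ s ∈ S, Cx K S' c (f s)) : Cx K S' (n * c) (f q) := by
  induction h with
  | base s hs => simpa using hf s hs
  | scalar a => simpa using Cx.scalar (K := K) (S := S') a
  | add _ _ hx hy => rw [add_mul, map_add]; exact hx.add hy
  | mul _ _ hx hy => rw [add_mul, map_mul]; exact hx.mul hy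
  | inv _ hx => rw [map_inv₀]; exact hx.inv

lemma Cx.iterate {S : Set Q} {c n : ℕ} {q : Q} (h : Cx K S n q) (f : Q →ₐ[K] Q)
    (hf : ∀ s ∈ S, Cx K S c (f s)) (j : ℕ) : Cx K S (n * c ^ j) ((f^[j]) q) := by
  induction j with
  | zero => simpa using h
  | succ j ih =>
    rw [Function.iterate_succ_apply', pow_succ, ← mul_assoc]
    exact ih.map f hf

/-- Every element of `V ^ n` has a complexity over a spanning set of `V`. -/
lemma exists_cx_pow (s : Finset Q) (n : ℕ) (q : Q)
    (hq : q ∈ (Submodule.span K (s : Set Q)) ^ n) : ∃ k, Cx K (s : Set Q) k q := by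
  have hspan : ∀ x ∈ Submodule.span K (s : Set Q), ∃ k, Cx K (s : Set Q) k x := by
    intro x hx
    induction hx using Submodule.span_induction with
    | mem x hx => exact ⟨1, Cx.base x hx⟩
    | zero => exact ⟨0, Cx.zero _⟩
    | add x y _ _ hx hy =>
      obtain ⟨k, hk⟩ := hx
      obtain ⟨l, hl⟩ := hy
      exact ⟨k + l, hk.add hl⟩
    | smul a x _ hx =>
      obtain ⟨k, hk⟩ := hx
      refine ⟨0 + k, ?_⟩
      rw [Algebra.smul_def]
      exact (Cx.scalar a).mul hk
  induction n generalizing q with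
  | zero =>
    rw [pow_zero, Submodule.mem_one] at hq
    obtain ⟨a, rfl⟩ := hq
    exact ⟨0, Cx.scalar a⟩
  | succ n ih =>
    rw [pow_succ] at hq
    induction hq using Submodule.mul_induction_on' with
    | mem_mul_mem x hx y hy =>
      obtain ⟨k, hk⟩ := ih x hx
      obtain ⟨l, hl⟩ := hspan y hy
      exact ⟨k + l, hk.mul hl⟩
    | add x _ y _ hx hy =>
      obtain ⟨k, hk⟩ := hx
      obtain ⟨l, hl⟩ := hy
      exact ⟨k + l, hk.add hl⟩

end Pool.Agent.Helper41.CT
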