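import Pool.Agent.Helper41.CT.Scale

/-!
# The limit argument
-/

open Filter Topology

namespace Pool.Agent.Helper41.CT

lemma tendsto_bound (a ℓ C : ℝ) : Tendsto (fun L : ℕ =>
    (2 * (a * (C + L * ℓ + Real.logb 2 L) + 1)) / (L : ℝ)) atTop (𝓝 (2 * (a * ℓ))) := by
  have h1 : Tendsto (fun L : ℕ => (1 : ℝ) / (L : ℝ)) atTop (𝓝 0) :=
    tendsto_one_div_atTop_nhds_zero_nat
  have h2 : Tendsto (fun L : ℕ => Real.log (L : ℝ) / (L : ℝ)) atTop (𝓝 0) := by
    have h := Real.isLittleO_log_id_atTop.tendsto_div_nhds_zero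
    exact h.comp tendsto_natCast_atTop_atTop
  have h3 : Tendsto (fun L : ℕ => (2 * a * C + 2) * ((1 : ℝ) / (L : ℝ)) + 2 * a * ℓ +
      (2 * a / Real.log 2) * (Real.log (L : ℝ) / (L : ℝ))) atTop
      (𝓝 ((2 * a * C + 2) * 0 + 2 * a * ℓ + (2 * a / Real.log 2) * 0)) :=
    ((h1.const_mul _).add_const _).add (h2.const_mul _)
  have h4 : (2 * a * C + 2) * 0 + 2 * a * ℓ + (2 * a / Real.log 2) * 0 = 2 * (a * ℓ) := by ring
  rw [h4] at h3
  refine h3.congr' ?_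
  filter_upwards [eventually_gt_atTop 0] with L hL
  have hL0 : (L : ℝ) ≠ 0 := by exact_mod_cast hL.ne'
  have hl : Real.log 2 ≠ 0 := (Real.log_pos (by norm_num)).ne'
  rw [Real.logb]
  field_simp
  ring

/-- From the inequalities at all scales to the bound for `r`. -/
theorem num (f : ℕ → ℕ) (hf1 : ∀ n, 1 ≤ f n) (hmono : Monotone f) (d : ℝ) (hd : 0 < d)
    (hub : ∀ᶠ n : ℕ in atTop, (f n : ℝ) ≤ (n : ℝ) ^ d) (r κ c : ℕ) (hc : 1 ≤ c)
    (h : ∀ L m I : ℕ, f m ≤ 2 ^ I → (r * L) * f m ≤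
      2 * I * f m + (r * L) * ((I + 1) * (κ * c ^ L * (f (m + 1) - f m)))) :
    (r : ℝ) ≤ 2 * d * Real.logb 2 c := by
  have hcr : (1 : ℝ) ≤ c := by exact_mod_cast hc
  set ℓ : ℝ := Real.logb 2 c with hℓ
  have hℓ0 : 0 ≤ ℓ := Real.logb_nonneg (by norm_num) hcr
  have main : ∀ δ : ℝ, 0 < δ → (r : ℝ) * (1 - δ) ≤ 2 * (d * (1 + δ) * ℓ) := by
    intro δ hδ
    have hB : Tendsto (fun L : ℕ => (κ + 1) * c ^ L * L) atTop atTop := by
      apply tendsto_atTop_mono (fun L : ℕ => ?_) tendsto_id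
      show L ≤ (κ + 1) * c ^ L * L
      exact Nat.le_mul_of_pos_left L (by positivity)
    have hs := hB.eventually (scale f hf1 hmono d δ hd hδ hub)
    refine ge_of_tendsto (tendsto_bound (d * (1 + δ)) ℓ (Real.logb 2 (κ + 1))) ?_
    filter_upwards [hs, eventually_gt_atTop 0] with L hL hL0
    obtain ⟨m, I, hI, h1, h2⟩ := hL
    have hLr : (0 : ℝ) < L := by exact_mod_cast hL0
    have h3 := h L m I hI
    have hfm : f m ≤ f (m + 1) := hmono (Nat.le_succ m)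
    have h4 : ((r : ℝ) * L) * f m ≤ 2 * I * f m + (r * L) * (((I : ℝ) + 1) * (κ * (c : ℝ) ^ L *
        ((f (m + 1) : ℝ) - f m))) := by
      have h5 : (((r * L) * f m : ℕ) : ℝ) ≤ ((2 * I * f m + (r * L) * ((I + 1) * (κ * c ^ L *
        (f (m + 1) - f m))) : ℕ) : ℝ) := by exact_mod_cast h3
      push_cast [Nat.cast_sub hfm] at h5
      exact h5
    have hfm0 : (0 : ℝ) < f m := by exact_mod_cast hf1 m
    have hdiff : (0 : ℝ) ≤ (f (m + 1) : ℝ) - f m := by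
      have : (f m : ℝ) ≤ f (m + 1) := by exact_mod_cast hfm
      linarith
    have hIr : (0 : ℝ) ≤ I := Nat.cast_nonneg I
    have hκr : (0 : ℝ) ≤ κ := Nat.cast_nonneg κ
    have hL1 : (1 : ℝ) ≤ L := by exact_mod_cast hL0
    have h6 : ((I : ℝ) + 1) * (κ * (c : ℝ) ^ L * ((f (m + 1) : ℝ) - f m)) ≤ δ * f m := by
      refine le_trans ?_ h1
      push_cast
      have h7 : (κ : ℝ) * (c : ℝ) ^ L ≤ ((κ : ℝ) + 1) * (c : ℝ) ^ L * L := by
        have h8 : (0 : ℝ) ≤ (c : ℝ) ^ L := by positivity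
        have h9 : ((κ : ℝ) + 1) * (c : ℝ) ^ L ≤ ((κ : ℝ) + 1) * (c : ℝ) ^ L * L := by
          have : 0 ≤ ((κ : ℝ) + 1) * (c : ℝ) ^ L := by positivity
          nlinarith
        nlinarith
      have h10 : (κ : ℝ) * (c : ℝ) ^ L * ((f (m + 1) : ℝ) - f m) ≤
          ((κ : ℝ) + 1) * (c : ℝ) ^ L * L * ((f (m + 1) : ℝ) - f m) :=
        mul_le_mul_of_nonneg_right h7 hdiff
      have h11 : 0 ≤ ((κ : ℝ) + 1) * (c : ℝ) ^ L * L * ((f (m + 1) : ℝ) - f m) := by positivity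
      calc ((I : ℝ) + 1) * (κ * (c : ℝ) ^ L * ((f (m + 1) : ℝ) - f m))
          ≤ ((I : ℝ) + 2) * (((κ : ℝ) + 1) * (c : ℝ) ^ L * L * ((f (m + 1) : ℝ) - f m)) := by
            apply mul_le_mul (by linarith) h10 (by positivity) (by linarith)
        _ = _ := by ring
    have h7 : ((r : ℝ) * L) * f m ≤ (2 * I + (r * L) * δ) * f m := by
      have h8 : (r * L : ℝ) * (((I : ℝ) + 1) * (κ * (c : ℝ) ^ L * ((f (m + 1) : ℝ) - f m))) ≤
          (r * L : ℝ) * (δ * f m) := mul_le_mul_of_nonneg_left h6 (by positivity)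
      calc _ ≤ _ := h4
        _ ≤ 2 * I * f m + (r * L : ℝ) * (δ * f m) := by linarith
        _ = _ := by ring
    have h8 : (r : ℝ) * L ≤ 2 * I + (r * L) * δ := le_of_mul_le_mul_right h7 hfm0
    rw [le_div_iff₀ hLr]
    have hlog : Real.logb 2 (((κ + 1) * c ^ L * L : ℕ) : ℝ) =
        Real.logb 2 (κ + 1) + L * ℓ + Real.logb 2 L := by
      push_cast
      have hc0 : (c : ℝ) ≠ 0 := by positivity
      rw [Real.logb_mul (by positivity) (by positivity), Real.logb_mul (by positivity)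
        (by positivity), Real.logb_pow]
    rw [hlog] at h2
    have : (r : ℝ) * (1 - δ) * L = r * L - r * L * δ := by ring
    rw [this]
    linarith
  by_contra hcon
  push Not at hcon
  have hr0 : (0 : ℝ) ≤ r := Nat.cast_nonneg r
  set g : ℝ := (r : ℝ) - 2 * d * ℓ with hg
  have hg0 : 0 < g := by rw [hg]; linarith
  set δ : ℝ := g / (2 * (2 * d * ℓ + r + 1)) with hδ
  have hden : 0 < 2 * d * ℓ + r + 1 := by positivity
  have hδ0 : 0 < δ := by positivity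
  have h1 := main δ hδ0
  have h2 : δ * (2 * d * ℓ + r + 1) = g / 2 := by
    rw [hδ]
    field_simp
  nlinarith

end Pool.Agent.Helper41.CT
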