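import Pool.Agent.Helper41.CT.FiniteLength
import Pool.Agent.Helper41.CT.Num

/-!
# The finite length theorem (from the chain inequality)
-/

open Module Filter

namespace Pool.Agent.Helper41.CT

open Pool.Agent.Helper7.DivSub

variable {K A Q : Type*} [Field K] [Ring A] [Algebra K A] [DivisionRing Q] [Algebra K Q]

lemma bd_pow (V : Submodule K Q) [FiniteDimensional K V] (h1 : (1 : Q) ∈ V) {v : Q} (hv : v ∈ V)
    (m : ℕ) : Bd (V ^ m) v (finrank K ↥(V ^ (m + 1)) - finrank K ↥(V ^ m)) := by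
  unfold Bd
  have hmono : finrank K ↥(V ^ m) ≤ finrank K ↥(V ^ (m + 1)) :=
    Submodule.finrank_mono (pow_le_pow_of_one_mem h1 (Nat.le_succ m))
  have h2 : (V ^ m).map (LinearMap.mulLeft K v) ⊔ V ^ m ≤ V ^ (m + 1) := by
    apply sup_le
    · rintro x ⟨y, hy, rfl⟩
      rw [pow_succ']
      exact Submodule.mul_mem_mul hv hy
    · exact pow_le_pow_of_one_mem h1 (Nat.le_succ m)
  have h3 := Submodule.finrank_mono h2
  omega

/-- A finite set has a common bound for complexities. -/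
lemma exists_common {S S' : Set Q} (hS : S.Finite) (h : ∀ s ∈ S, ∃ n, Cx K S' n s) :
    ∃ κ, ∀ s ∈ S, ∃ k ≤ κ, Cx K S' k s := by
  classical
  choose! n hn using h
  refine ⟨hS.toFinset.sup n, fun s hs => ⟨n s, ?_, hn s hs⟩⟩
  exact Finset.le_sup (f := n) (by simpa using hs)

/-- Rational generators of the quotient division algebra. -/
lemma exists_cx_of_frac (V : Submodule K Q)
    (hfrac : ∀ q : Q, ∃ n : ℕ, ∃ a ∈ V ^ n, ∃ b ∈ V ^ n, b ≠ 0 ∧ q = b⁻¹ * a)
    (s : Finset Q) (hs : Submodule.span K (s : Set Q) = V) (q : Q) :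
    ∃ k, Cx K (s : Set Q) k q := by
  obtain ⟨n, a, ha, b, hb, -, rfl⟩ := hfrac q
  rw [← hs] at ha hb
  obtain ⟨k, hk⟩ := exists_cx_pow s n a ha
  obtain ⟨l, hl⟩ := exists_cx_pow s n b hb
  exact ⟨l + k, hl.inv.mul hk⟩

theorem finite_length_core (hchain : ChainIneq K Q) [Algebra.FiniteType K A] (ι : A →ₐ[K] Q)
    (hι : IsQuotientDivisionAlgebra ι) (d : ℝ) (hd : 0 ≤ d) (hgk : GKdim K A ≤ (d : EReal))
    (S : Set Q) (hSf : S.Finite) (hSg : ∀ q : Q, ∃ n, Cx K S n q)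
    (σ : Q →ₐ[K] Q) (c : ℕ) (hc : 1 ≤ c) (hS : ∀ s ∈ S, ∃ c' ≤ c, Cx K S c' (σ s))
    (r : ℕ) (E : ℕ → Subfield Q) (hE : ∀ i < r, E (i + 1) < E i) (hσ : ∀ q, σ q ∈ E r) :
    (r : ℝ) ≤ 2 * d * Real.logb 2 c := by
  classical
  have hcr : (1 : ℝ) ≤ c := by exact_mod_cast hc
  have hℓ0 : 0 ≤ Real.logb 2 c := Real.logb_nonneg (by norm_num) hcr
  rcases Nat.eq_zero_or_pos r with hr | hr
  · subst hr
    simp only [Nat.cast_zero]
    positivity
  obtain ⟨V, hV, h1, hfrac, hlim⟩ := exists_V ι hι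
  obtain ⟨s0, hs0⟩ := (Submodule.fg_iff_finiteDimensional V).2 hV
  -- witnesses
  have hw : ∀ i : ℕ, ∃ x : Q, i < r → (x ∈ E i ∧ x ∉ E (i + 1)) := by
    intro i
    by_cases hi : i < r
    · obtain ⟨x, hx, hx'⟩ := SetLike.exists_of_lt (hE i hi)
      exact ⟨x, fun _ => ⟨hx, hx'⟩⟩
    · exact ⟨0, fun h => absurd h hi⟩
  choose w hw using hw
  obtain ⟨κ, hκ⟩ := exists_common (K := K) (S := w '' Set.Iio r) (S' := S)
    ((Set.finite_Iio r).image w) (fun s _ => hSg s)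
  obtain ⟨κ0, hκ0⟩ := exists_common (K := K) (S := S) (S' := (s0 : Set Q)) hSf
    (fun s _ => exists_cx_of_frac V hfrac s0 hs0 s)
  have hbd : ∀ m : ℕ, ∀ s ∈ S, Bd (V ^ m) s
      (κ0 * (finrank K ↥(V ^ (m + 1)) - finrank K ↥(V ^ m))) := by
    intro m s hs
    obtain ⟨k, hk, hcx⟩ := hκ0 s hs
    have h2 := hcx.bd (T := V ^ m) (fun v hv => bd_pow V h1 (v := v)
      (hs0 ▸ Submodule.subset_span hv) m)
    exact h2.mono (Nat.mul_le_mul_right _ hk)
  have hineq : ∀ L m I : ℕ, finrank K ↥(V ^ m) ≤ 2 ^ I → (r * L) * finrank K ↥(V ^ m) ≤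
      2 * I * finrank K ↥(V ^ m) + (r * L) * ((I + 1) * ((κ * κ0) * c ^ L *
        (finrank K ↥(V ^ (m + 1)) - finrank K ↥(V ^ m)))) := by
    intro L m I hI
    have h2 := bound_L hchain σ hr E (fun i hi => (hE i hi).le) hσ w (fun i hi => (hw i hi).1)
      (fun i hi => (hw i hi).2) S c hc hS κ (fun i hi => hκ _ ⟨i, hi, rfl⟩) (V ^ m) _ (hbd m) I L hI
    refine h2.trans (le_of_eq ?_)
    ring
  have hmono : Monotone (fun n : ℕ => finrank K ↥(V ^ n)) := fun a b hab =>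
    Submodule.finrank_mono (pow_le_pow_of_one_mem h1 hab)
  have hmain : ∀ d' : ℝ, d < d' → (r : ℝ) ≤ 2 * d' * Real.logb 2 c := by
    intro d' hd'
    have hlt : limsup (fun n : ℕ => ((Real.log (finrank K ↥(V ^ n)) / Real.log n : ℝ) : EReal))
        atTop < ((d' : ℝ) : EReal) :=
      (hlim.trans hgk).trans_lt (by exact_mod_cast hd')
    obtain ⟨d2, hd2, hev⟩ := eventually_le_of_limsup (fun n => finrank K ↥(V ^ n))
      (fun n => finrank_pow_pos h1 n) d' hlt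
    refine num (fun n => finrank K ↥(V ^ n)) (fun n => finrank_pow_pos h1 n) hmono d'
      (lt_of_le_of_lt hd hd') ?_ r (κ * κ0) c hc hineq
    filter_upwards [hev, eventually_ge_atTop 1] with n hn hn1
    refine hn.trans (Real.rpow_le_rpow_of_exponent_le (by exact_mod_cast hn1) hd2.le)
  apply le_of_forall_pos_le_add
  intro η hη
  have h2 := hmain (d + η / (2 * Real.logb 2 c + 1)) (by
    have : 0 < η / (2 * Real.logb 2 c + 1) := by positivity
    linarith)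
  have h3 : 2 * (η / (2 * Real.logb 2 c + 1)) * Real.logb 2 c ≤ η := by
    have : 2 * (η / (2 * Real.logb 2 c + 1)) * Real.logb 2 c =
        η * (2 * Real.logb 2 c) / (2 * Real.logb 2 c + 1) := by ring
    rw [this, div_le_iff₀ (by positivity)]
    nlinarith
  calc (r : ℝ) ≤ 2 * (d + η / (2 * Real.logb 2 c + 1)) * Real.logb 2 c := h2
    _ = 2 * d * Real.logb 2 c + 2 * (η / (2 * Real.logb 2 c + 1)) * Real.logb 2 c := by ring
    _ ≤ 2 * d * Real.logb 2 c + η := by linarith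

end Pool.Agent.Helper41.CT
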