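import Mathlib

/-!
# A good scale of a function of polynomial growth
-/

open Filter

namespace Pool.Agent.Helper41.CT

lemma key_eventually (d δ : ℝ) (hd : 0 < d) (hδ : 0 < δ) : ∀ᶠ x : ℝ in atTop,
    4 * (d * (1 + δ)) * Real.log x * (d * (1 + δ) * Real.logb 2 x + 3) < δ * x ^ δ := by
  set a : ℝ := d * (1 + δ) with ha
  have ha0 : 0 < a := by positivity
  have hl2 : 0 < Real.log 2 := Real.log_pos (by norm_num)
  set C : ℝ := 4 * a * (a / Real.log 2 + 3) with hC
  have hC0 : 0 < C := by positivity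
  have ho := isLittleO_log_rpow_rpow_atTop (2 : ℝ) hδ
  have h1 := ho.bound (c := δ / (2 * C)) (by positivity)
  filter_upwards [h1, eventually_ge_atTop (Real.exp 1), eventually_gt_atTop 1] with x hx hxe hx1
  have hx0 : 0 < x := by linarith
  have hlog1 : 1 ≤ Real.log x := by
    rw [← Real.log_exp 1]
    exact Real.log_le_log (Real.exp_pos 1) hxe
  have hxp : 0 < x ^ δ := Real.rpow_pos_of_pos hx0 δ
  rw [Real.norm_of_nonneg (by positivity), Real.norm_of_nonneg hxp.le] at hx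
  have h2 : Real.log x ^ (2 : ℝ) = Real.log x * Real.log x := by
    rw [show (2 : ℝ) = ((2 : ℕ) : ℝ) by norm_num, Real.rpow_natCast]
    ring
  rw [h2] at hx
  have h3 : a * Real.logb 2 x + 3 ≤ (a / Real.log 2 + 3) * Real.log x := by
    rw [Real.logb]
    have : a * (Real.log x / Real.log 2) = a / Real.log 2 * Real.log x := by ring
    rw [this]
    nlinarith
  have h4 : 4 * a * Real.log x * (a * Real.logb 2 x + 3) ≤ C * (Real.log x * Real.log x) := by
    have : C * (Real.log x * Real.log x) =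
        4 * a * Real.log x * ((a / Real.log 2 + 3) * Real.log x) := by rw [hC]; ring
    rw [this]
    gcongr
  have h5 : C * (Real.log x * Real.log x) ≤ C * (δ / (2 * C) * x ^ δ) := by gcongr
  have h6 : C * (δ / (2 * C) * x ^ δ) = δ * x ^ δ / 2 := by field_simp
  have h7 : 0 < δ * x ^ δ := by positivity
  linarith

/-- A good scale. -/
theorem scale (f : ℕ → ℕ) (hf1 : ∀ n, 1 ≤ f n) (hmono : Monotone f) (d δ : ℝ) (hd : 0 < d)
    (hδ : 0 < δ) (hub : ∀ᶠ n : ℕ in atTop, (f n : ℝ) ≤ (n : ℝ) ^ d) :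
    ∀ᶠ B : ℕ in atTop, ∃ m I : ℕ, f m ≤ 2 ^ I ∧
      (B : ℝ) * ((I : ℝ) + 2) * ((f (m + 1) : ℝ) - f m) ≤ δ * f m ∧
      (I : ℝ) ≤ d * (1 + δ) * Real.logb 2 B + 1 := by
  obtain ⟨n0, hn0⟩ := eventually_atTop.1 hub
  have hkey := (tendsto_natCast_atTop_atTop (R := ℝ)).eventually (key_eventually d δ hd hδ)
  filter_upwards [hkey, eventually_ge_atTop (n0 + 2), eventually_ge_atTop ⌈δ⌉₊] with B hB hB2 hBδ
  have hB2' : 2 ≤ B := by omega
  have hBr : (2 : ℝ) ≤ B := by exact_mod_cast hB2'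
  have hB0 : (0 : ℝ) < B := by linarith
  have hBδ' : δ ≤ B := (Nat.le_ceil δ).trans (by exact_mod_cast hBδ)
  set X : ℝ := (B : ℝ) ^ (1 + δ) with hX
  have hXB : (B : ℝ) ≤ X := by
    rw [hX]
    calc (B : ℝ) = (B : ℝ) ^ (1 : ℝ) := (Real.rpow_one _).symm
      _ ≤ (B : ℝ) ^ (1 + δ) := Real.rpow_le_rpow_of_exponent_le (by linarith) (by linarith)
  set M : ℕ := ⌊X⌋₊ with hM
  have hMX : (M : ℝ) ≤ X := Nat.floor_le (by linarith)
  have hMB : B ≤ M := Nat.le_floor hXB
  have hM1 : (1 : ℝ) < M := by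
    have : (B : ℝ) ≤ M := by exact_mod_cast hMB
    linarith
  have hM0 : (0 : ℝ) < M := by linarith
  have hM2 : X / 2 ≤ M := by
    have h := Nat.lt_floor_add_one X
    rw [← hM] at h
    linarith
  have hlogb : Real.logb 2 M ≤ (1 + δ) * Real.logb 2 B := by
    rw [← Real.logb_rpow_eq_mul_logb_of_pos hB0]
    exact Real.logb_le_logb_of_le (by norm_num) hM0 hMX
  have hlog : Real.log M ≤ (1 + δ) * Real.log B := by
    rw [← Real.log_rpow hB0]
    exact Real.log_le_log hM0 hMX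
  have hlogM0 : 0 ≤ Real.logb 2 M := Real.logb_nonneg (by norm_num) hM1.le
  set I : ℕ := ⌈d * Real.logb 2 M⌉₊ with hI
  have hI1 : (I : ℝ) < d * Real.logb 2 M + 1 := Nat.ceil_lt_add_one (by positivity)
  have hI2 : (I : ℝ) ≤ d * (1 + δ) * Real.logb 2 B + 1 := by
    have : d * Real.logb 2 M ≤ d * ((1 + δ) * Real.logb 2 B) := by gcongr
    linarith
  have hfM : (f M : ℝ) ≤ (M : ℝ) ^ d := hn0 M (by omega)
  have hfI : f M ≤ 2 ^ I := by
    have h1 : (M : ℝ) ^ d ≤ (2 : ℝ) ^ I := by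
      have h2 : (M : ℝ) = (2 : ℝ) ^ (Real.logb 2 M) :=
        (Real.rpow_logb (by norm_num) (by norm_num) hM0).symm
      calc (M : ℝ) ^ d = ((2 : ℝ) ^ (Real.logb 2 M)) ^ d := by rw [← h2]
        _ = (2 : ℝ) ^ (d * Real.logb 2 M) := by
          rw [← Real.rpow_mul (by norm_num), mul_comm]
        _ ≤ (2 : ℝ) ^ (I : ℝ) :=
          Real.rpow_le_rpow_of_exponent_le (by norm_num) (Nat.le_ceil _)
        _ = (2 : ℝ) ^ I := Real.rpow_natCast _ _
    exact_mod_cast hfM.trans h1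
  by_contra hcon
  push Not at hcon
  have hIr : (0 : ℝ) ≤ I := Nat.cast_nonneg I
  set ε : ℝ := δ / (B * ((I : ℝ) + 2)) with hε
  have hε0 : 0 < ε := by positivity
  have hε2 : ε ≤ 2 := by
    rw [hε, div_le_iff₀ (by positivity)]
    nlinarith
  have hstep : ∀ m : ℕ, m < M → (1 + ε) * f m ≤ f (m + 1) := by
    intro m hm
    have h1 : f m ≤ 2 ^ I := (hmono hm.le).trans hfI
    have h2 : δ * f m < (B : ℝ) * ((I : ℝ) + 2) * ((f (m + 1) : ℝ) - f m) := by
      by_contra h3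
      push Not at h3
      exact absurd hI2 (not_le.2 (hcon m I h1 h3))
    have h3 : ε * f m < (f (m + 1) : ℝ) - f m := by
      rw [hε, div_mul_eq_mul_div, div_lt_iff₀ (by positivity)]
      linarith
    linarith
  have hpow : ∀ j : ℕ, j ≤ M → (1 + ε) ^ j ≤ f j := by
    intro j
    induction j with
    | zero => intro _; simpa using (by exact_mod_cast hf1 0 : (1 : ℝ) ≤ f 0)
    | succ j ih =>
      intro hj
      have h1 := ih (by omega)
      have h2 := hstep j (by omega)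
      rw [pow_succ, mul_comm]
      refine le_trans ?_ h2
      gcongr
  have h1 := (hpow M le_rfl).trans hfM
  have h2 : (M : ℝ) * Real.log (1 + ε) ≤ d * Real.log M := by
    rw [← Real.log_rpow hM0, ← Real.log_pow]
    exact Real.log_le_log (by positivity) h1
  have h3 : ε / 2 ≤ Real.log (1 + ε) := by
    refine le_trans ?_ (Real.le_log_one_add_of_nonneg hε0.le)
    rw [div_le_div_iff₀ (by norm_num) (by positivity)]
    nlinarith
  have h4 : (M : ℝ) * (ε / 2) ≤ d * ((1 + δ) * Real.log B) := by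
    have h5 : (M : ℝ) * (ε / 2) ≤ M * Real.log (1 + ε) := by gcongr
    have h6 : d * Real.log M ≤ d * ((1 + δ) * Real.log B) := by gcongr
    linarith
  have h5 : X / 2 * (ε / 2) ≤ d * ((1 + δ) * Real.log B) := by
    refine le_trans ?_ h4
    gcongr
  have h6 : X = (B : ℝ) ^ δ * B := by
    rw [hX, add_comm, Real.rpow_add hB0, Real.rpow_one]
  have h7 : X / 2 * (ε / 2) = δ * (B : ℝ) ^ δ / (4 * ((I : ℝ) + 2)) := by
    rw [h6, hε]
    field_simp
    ring
  rw [h7, div_le_iff₀ (by positivity)] at h5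
  have hlogB : 0 ≤ Real.log B := Real.log_nonneg (by linarith)
  have h8 : d * ((1 + δ) * Real.log B) * (4 * ((I : ℝ) + 2)) ≤
      4 * (d * (1 + δ)) * Real.log B * (d * (1 + δ) * Real.logb 2 B + 3) := by
    have h9 : (I : ℝ) + 2 ≤ d * (1 + δ) * Real.logb 2 B + 3 := by linarith
    calc d * ((1 + δ) * Real.log B) * (4 * ((I : ℝ) + 2))
        = 4 * (d * (1 + δ)) * Real.log B * ((I : ℝ) + 2) := by ring
      _ ≤ _ := by gcongr
  linarith

end Pool.Agent.Helper41.CT
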