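import Pool.Agent.Helper7.DivSub.Setup
import Pool.Agent.Helper41.CT.Cost
import Pool.Agent.Helper41.CT.Scale

/-!
# Finite length of the interval between `σ(Q)` and `Q`
-/

open Module Filter

namespace Pool.Agent.Helper41.CT

open Pool.Agent.Helper7.DivSub

variable {K Q : Type*} [Field K] [DivisionRing Q] [Algebra K Q]

/-- The chain inequality (proved by helper96). -/
def ChainIneq (K Q : Type*) [Field K] [DivisionRing Q] [Algebra K Q] : Prop :=
  ∀ (T : Submodule K Q), FiniteDimensional K T → ∀ (I L δ : ℕ) (D : ℕ → Subfield Q) (e : ℕ → Q),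
    (∀ k : K, algebraMap K Q k ∈ D L) → (∀ j < L, D (j + 1) ≤ D j) → (∀ j < L, e j ∈ D j) →
    (∀ j < L, e j ∉ D (j + 1)) → finrank K T ≤ 2 ^ I →
    (∀ j < L, finrank K ↥(T ⊔ T.map (LinearMap.mulLeft K (e j))) ≤ finrank K T + δ) →
    L * finrank K T ≤ 2 * I * finrank K T + L * ((I + 1) * δ)

lemma Cx.map_le {S : Set Q} {c n : ℕ} {q : Q} (h : Cx K S n q) (f : Q →ₐ[K] Q)
    (hf : ∀ s ∈ S, ∃ c' ≤ c, Cx K S c' (f s)) : ∃ k ≤ n * c, Cx K S k (f q) := by
  induction h with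
  | base s hs =>
    obtain ⟨c', hc', h'⟩ := hf s hs
    exact ⟨c', by omega, h'⟩
  | scalar a => exact ⟨0, by omega, by simpa using Cx.scalar (K := K) (S := S) a⟩
  | add _ _ hx hy =>
    obtain ⟨k, hk, h1⟩ := hx
    obtain ⟨l, hl, h2⟩ := hy
    refine ⟨k + l, ?_, ?_⟩
    · rw [add_mul]; omega
    · rw [map_add]; exact h1.add h2
  | mul _ _ hx hy =>
    obtain ⟨k, hk, h1⟩ := hx
    obtain ⟨l, hl, h2⟩ := hy
    refine ⟨k + l, ?_, ?_⟩
    · rw [add_mul]; omega
    · rw [map_mul]; exact h1.mul h2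
  | inv _ hx =>
    obtain ⟨k, hk, h1⟩ := hx
    exact ⟨k, hk, by rw [map_inv₀]; exact h1.inv⟩

lemma Cx.pow_le {S : Set Q} {c n : ℕ} {q : Q} (h : Cx K S n q) (f : Q →ₐ[K] Q)
    (hf : ∀ s ∈ S, ∃ c' ≤ c, Cx K S c' (f s)) (j : ℕ) :
    ∃ k ≤ n * c ^ j, Cx K S k ((f ^ j) q) := by
  induction j with
  | zero => exact ⟨n, by simp, by simpa using h⟩
  | succ j ih =>
    obtain ⟨k, hk, h1⟩ := ih
    obtain ⟨l, hl, h2⟩ := h1.map_le f hf
    refine ⟨l, hl.trans ?_, ?_⟩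
    · rw [pow_succ, ← mul_assoc]
      exact Nat.mul_le_mul_right c hk
    · rw [pow_succ']
      exact h2

/-- The chain `σ^j(E_i)`, `i < r`, numbered by `n = r j + i`. -/
def bigD (σ : Q →ₐ[K] Q) (r : ℕ) (E : ℕ → Subfield Q) (n : ℕ) : Subfield Q :=
  (E (n % r)).map ((σ ^ (n / r) : Q →ₐ[K] Q) : Q →+* Q)

lemma pow_inj (σ : Q →ₐ[K] Q) (j : ℕ) : Function.Injective (σ ^ j : Q →ₐ[K] Q) :=
  RingHom.injective ((σ ^ j : Q →ₐ[K] Q) : Q →+* Q)

lemma bigD_succ_le (σ : Q →ₐ[K] Q) {r : ℕ} (hr : 0 < r) (E : ℕ → Subfield Q)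
    (hσ : ∀ q, σ q ∈ E r) (n : ℕ) :
    bigD σ r E (n + 1) ≤ (E (n % r + 1)).map ((σ ^ (n / r) : Q →ₐ[K] Q) : Q →+* Q) := by
  have hm := Nat.mod_lt n hr
  by_cases h : n % r + 1 = r
  · have h1 : (n + 1) % r = 0 := by
      rw [Nat.add_mod, ← Nat.mod_add_mod] 
      rw [Nat.mod_mod]
      have := Nat.div_add_mod n r
      rw [← Nat.add_mod, ← this, add_assoc, h]
      simp
    have h2 : (n + 1) / r = n / r + 1 := by
      have h3 := Nat.div_add_mod n r
      have h4 : n + 1 = r * (n / r + 1) := by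
        rw [mul_add, mul_one]; omega
      rw [h4]
      exact Nat.mul_div_cancel_left _ hr
    unfold bigD
    rw [h1, h2, h]
    rintro x ⟨y, -, rfl⟩
    refine ⟨σ y, hσ y, ?_⟩
    rw [pow_succ]
    rfl
  · have h1 : (n + 1) % r = n % r + 1 := by
      have h3 := Nat.div_add_mod n r
      have h4 : n + 1 = (n % r + 1) + r * (n / r) := by omega
      rw [h4, Nat.add_mul_mod_self_left]
      exact Nat.mod_eq_of_lt (by omega)
    have h2 : (n + 1) / r = n / r := by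
      have h3 := Nat.div_add_mod n r
      have h4 := Nat.div_add_mod (n + 1) r
      rw [h1] at h4
      have h5 : r * ((n + 1) / r) = r * (n / r) := by omega
      exact Nat.eq_of_mul_eq_mul_left hr h5
    unfold bigD
    rw [h1, h2]

lemma bound_L (hchain : ChainIneq K Q) (σ : Q →ₐ[K] Q) {r : ℕ} (hr : 0 < r)
    (E : ℕ → Subfield Q) (hE : ∀ i < r, E (i + 1) ≤ E i) (hσ : ∀ q, σ q ∈ E r)
    (w : ℕ → Q) (hw : ∀ i < r, w i ∈ E i) (hw' : ∀ i < r, w i ∉ E (i + 1))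
    (S : Set Q) (c : ℕ) (hc : 1 ≤ c) (hS : ∀ s ∈ S, ∃ c' ≤ c, Cx K S c' (σ s))
    (κ : ℕ) (hκ : ∀ i < r, ∃ k ≤ κ, Cx K S k (w i))
    (T : Submodule K Q) [FiniteDimensional K T] (β : ℕ) (hβ : ∀ s ∈ S, Bd T s β)
    (I L : ℕ) (hI : finrank K T ≤ 2 ^ I) :
    (r * L) * finrank K T ≤ 2 * I * finrank K T + (r * L) * ((I + 1) * (κ * c ^ L * β)) := by
  have hK : ∀ k : K, ∀ j i : ℕ, i ≤ r →
      algebraMap K Q k ∈ (E i).map ((σ ^ j : Q →ₐ[K] Q) : Q →+* Q) := by
    intro k j i hi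
    have hmem : algebraMap K Q k ∈ E i := by
      have h1 : ∀ m, m ≤ r → E r ≤ E (r - m) := by
        intro m
        induction m with
        | zero => intro _; simp
        | succ m ih =>
          intro hm
          refine (ih (by omega)).trans ?_
          have h2 := hE (r - (m + 1)) (by omega)
          have h3 : r - (m + 1) + 1 = r - m := by omega
          rwa [h3] at h2
      have h4 := h1 (r - i) (by omega)
      have h5 : r - (r - i) = i := by omega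
      rw [h5] at h4
      have h6 := hσ (algebraMap K Q k)
      rw [AlgHom.commutes] at h6
      exact h4 h6
    exact ⟨algebraMap K Q k, hmem, AlgHom.commutes _ _⟩
  refine hchain T inferInstance I (r * L) (κ * c ^ L * β) (bigD σ r E)
    (fun n => (σ ^ (n / r) : Q →ₐ[K] Q) (w (n % r))) ?_ ?_ ?_ ?_ hI ?_
  · intro k
    exact hK k _ _ (Nat.mod_lt _ hr).le
  · intro n _
    refine (bigD_succ_le σ hr E hσ n).trans ?_
    unfold bigD
    apply (Subfield.gc_map_comap _).monotone_l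
    exact hE _ (Nat.mod_lt _ hr)
  · intro n _
    exact ⟨w (n % r), hw _ (Nat.mod_lt _ hr), rfl⟩
  · intro n _ hmem
    have h1 := bigD_succ_le σ hr E hσ n hmem
    obtain ⟨y, hy, hy2⟩ := h1
    have h2 : y = w (n % r) := pow_inj σ (n / r) hy2
    rw [h2] at hy
    exact hw' _ (Nat.mod_lt _ hr) hy
  · intro n hn
    obtain ⟨k, hk, h1⟩ := hκ (n % r) (Nat.mod_lt _ hr)
    obtain ⟨l, hl, h2⟩ := h1.pow_le σ hS (n / r)
    have h3 := h2.bd (T := T) hβ
    have hj : n / r ≤ L := (Nat.div_lt_iff_lt_mul hr).2 (by rw [mul_comm]; exact hn) |>.le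
    have h4 : l * β ≤ κ * c ^ L * β := by
      apply Nat.mul_le_mul_right
      refine hl.trans ?_
      exact Nat.mul_le_mul hk (Nat.pow_le_pow_right hc hj)
    have h5 := h3.mono h4
    unfold Bd at h5
    rw [sup_comm]
    exact h5

end Pool.Agent.Helper41.CT
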